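import Pool.Agent.H.MP_ce2c94_gt.D3Hat

/-!
Evaluation of weighted absolutely convergent double Fourier series with real coefficients:
algebra homomorphism, smoothness, derivatives, periodicity, reality.
-/

open Complex
open scoped ContDiff ComplexConjugate

namespace D3

/-- A commutative Banach algebra with a basis `e k` (`k` in `ℤ × ℤ`), `e (k + l) = e k * e l`,
whose norm is the weighted `l^1` norm. -/
structure WData (W : Type*) [NormedCommRing W] [NormedAlgebra ℝ W] where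
  e : ℤ × ℤ → W
  coef : ℤ × ℤ → W →L[ℝ] ℝ
  nu : ℝ
  nu_gt : 1 < nu
  e_zero : e 0 = 1
  e_add : ∀ k l, e (k + l) = e k * e l
  coef_e : ∀ k l, coef k (e l) = if k = l then 1 else 0
  summ : ∀ f, HasSum (fun k => coef k f • e k) f
  norm : ∀ f, HasSum (fun k => |coef k f| * nu ^ (k.1.natAbs + k.2.natAbs)) ‖f‖

/-- the linear form `k.1 u + k.2 t` -/
noncomputable def lin (k : ℤ × ℤ) : ℝ × ℝ →L[ℝ] ℝ :=
  (k.1 : ℝ) • ContinuousLinearMap.fst ℝ ℝ ℝ + (k.2 : ℝ) • ContinuousLinearMap.snd ℝ ℝ ℝ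

theorem lin_apply (k : ℤ × ℤ) (p : ℝ × ℝ) : lin k p = k.1 * p.1 + k.2 * p.2 := by simp [lin]

theorem norm_lin_le (k : ℤ × ℤ) : ‖lin k‖ ≤ ((k.1.natAbs + k.2.natAbs : ℕ) : ℝ) := by
  apply ContinuousLinearMap.opNorm_le_bound _ (by positivity)
  intro p
  rw [lin_apply]
  have h1 : |p.1| ≤ ‖p‖ := by simpa using norm_fst_le p
  have h2 : |p.2| ≤ ‖p‖ := by simpa using norm_snd_le p
  have e1 : (k.1.natAbs : ℝ) = |(k.1 : ℝ)| := by
    rw [Nat.cast_natAbs, Int.cast_abs]
  have e2 : (k.2.natAbs : ℝ) = |(k.2 : ℝ)| := by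
    rw [Nat.cast_natAbs, Int.cast_abs]
  push_cast
  rw [e1, e2, Real.norm_eq_abs]
  calc |(k.1 : ℝ) * p.1 + k.2 * p.2| ≤ |(k.1 : ℝ) * p.1| + |(k.2 : ℝ) * p.2| := abs_add_le _ _
    _ = |(k.1 : ℝ)| * |p.1| + |(k.2 : ℝ)| * |p.2| := by rw [abs_mul, abs_mul]
    _ ≤ |(k.1 : ℝ)| * ‖p‖ + |(k.2 : ℝ)| * ‖p‖ := by gcongr
    _ = _ := by ring

/-- the character `exp (i (k.1 u + k.2 t))` -/
noncomputable def ph (k : ℤ × ℤ) (p : ℝ × ℝ) : ℂ := cexp (I * (lin k p : ℝ))

theorem ph_zero (p : ℝ × ℝ) : ph 0 p = 1 := by simp [ph, lin_apply]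

theorem ph_add (k l : ℤ × ℤ) (p : ℝ × ℝ) : ph (k + l) p = ph k p * ph l p := by
  simp only [ph, lin_apply, ← Complex.exp_add]
  congr 1
  push_cast [Prod.fst_add, Prod.snd_add]
  ring

theorem norm_ph (k : ℤ × ℤ) (p : ℝ × ℝ) : ‖ph k p‖ = 1 := by
  rw [ph, mul_comm]
  exact Complex.norm_exp_ofReal_mul_I _

theorem conj_ph (k : ℤ × ℤ) (p : ℝ × ℝ) : conj (ph k p) = ph k (-p) := by
  simp only [ph, ← Complex.exp_conj, map_mul, Complex.conj_I, Complex.conj_ofReal, map_neg]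
  congr 1
  push_cast
  ring

theorem ph_neg_neg (k : ℤ × ℤ) (p : ℝ × ℝ) : ph (-k) (-p) = ph k p := by
  simp only [ph, lin_apply]
  congr 1
  push_cast [Prod.fst_neg, Prod.snd_neg]
  ring

theorem ph_neg (k : ℤ × ℤ) (p : ℝ × ℝ) : ph (-k) p = ph k (-p) := by
  have := ph_neg_neg k (-p)
  rwa [neg_neg] at this

theorem ph_per1 (k : ℤ × ℤ) (p : ℝ × ℝ) : ph k (p.1 + 2 * Real.pi, p.2) = ph k p := by
  simp only [ph, lin_apply]
  rw [Complex.exp_eq_exp_iff_exists_int]
  refine ⟨k.1, ?_⟩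
  push_cast
  ring

theorem ph_per2 (k : ℤ × ℤ) (p : ℝ × ℝ) : ph k (p.1, p.2 + 2 * Real.pi) = ph k p := by
  simp only [ph, lin_apply]
  rw [Complex.exp_eq_exp_iff_exists_int]
  refine ⟨k.2, ?_⟩
  push_cast
  ring

/-- `x ↦ exp (i x)` -/
noncomputable def ex (x : ℝ) : ℂ := cexp (I * (x : ℝ))

theorem hasDerivAt_ex (x : ℝ) : HasDerivAt ex (I * ex x) x := by
  have h1 : HasDerivAt (fun x : ℝ => I * (x : ℂ)) (I * 1) x :=
    (Complex.ofRealCLM.hasDerivAt (x := x)).const_mul I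
  have h2 := h1.cexp
  refine h2.congr_deriv ?_
  simp only [ex]
  ring

theorem contDiff_ex : ContDiff ℝ ∞ ex := by
  unfold ex
  exact (contDiff_const.mul Complex.ofRealCLM.contDiff).cexp

theorem iteratedDeriv_ex (n : ℕ) : iteratedDeriv n ex = fun x => I ^ n * ex x := by
  induction n with
  | zero => simp
  | succ n ih =>
    rw [iteratedDeriv_succ, ih]
    funext x
    rw [((hasDerivAt_ex x).const_mul (I ^ n)).deriv]
    ring

theorem norm_ex (x : ℝ) : ‖ex x‖ = 1 := by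
  rw [ex, mul_comm]
  exact Complex.norm_exp_ofReal_mul_I _

theorem ph_eq (k : ℤ × ℤ) : ph k = ex ∘ lin k := rfl

theorem contDiff_ph (k : ℤ × ℤ) : ContDiff ℝ ∞ (ph k) := by
  rw [ph_eq]
  exact contDiff_ex.comp (lin k).contDiff

theorem norm_iteratedFDeriv_ph_le (k : ℤ × ℤ) (n : ℕ) (p : ℝ × ℝ) :
    ‖iteratedFDeriv ℝ n (ph k) p‖ ≤ ((k.1.natAbs + k.2.natAbs : ℕ) : ℝ) ^ n := by
  rw [ph_eq, ContinuousLinearMap.iteratedFDeriv_comp_right (lin k) contDiff_ex p
    (i := n) (by exact_mod_cast le_top)]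
  refine (ContinuousMultilinearMap.norm_compContinuousLinearMap_le _ _).trans ?_
  rw [norm_iteratedFDeriv_eq_norm_iteratedDeriv, iteratedDeriv_ex]
  simp only [norm_mul, norm_pow, Complex.norm_I, one_pow, norm_ex, mul_one, one_mul,
    Finset.prod_const, Finset.card_univ, Fintype.card_fin]
  exact pow_le_pow_left₀ (norm_nonneg _) (norm_lin_le k) n

theorem hasFDerivAt_ph (k : ℤ × ℤ) (p : ℝ × ℝ) :
    HasFDerivAt (ph k) (clf (I * ((k.1 : ℝ) * ph k p)) (I * ((k.2 : ℝ) * ph k p))) p := by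
  have h1 := (hasDerivAt_ex (lin k p)).hasFDerivAt.comp p (lin k).hasFDerivAt
  rw [ph_eq]
  refine h1.congr_fderiv ?_
  apply ContinuousLinearMap.ext
  intro w
  simp only [ContinuousLinearMap.comp_apply, clf_apply, lin_apply, Function.comp_apply,
    ContinuousLinearMap.toSpanSingleton_apply, Complex.real_smul]
  push_cast
  ring

theorem exists_pow_le {nu : ℝ} (h : 1 < nu) (n : ℕ) :
    ∃ C : ℝ, 0 ≤ C ∧ ∀ m : ℕ, (m : ℝ) ^ n ≤ C * nu ^ m := by
  have h0 : 0 < nu := by linarith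
  have h1 : |nu⁻¹| < 1 := by
    rw [abs_of_pos (inv_pos.2 h0)]
    exact inv_lt_one_of_one_lt₀ h
  obtain ⟨C, hC⟩ := (tendsto_pow_const_mul_const_pow_of_abs_lt_one n h1).bddAbove_range
  refine ⟨C, ?_, ?_⟩
  · have := hC ⟨0, rfl⟩
    refine le_trans ?_ this
    positivity
  · intro m
    have := hC ⟨m, rfl⟩
    simp only [inv_pow] at this
    rwa [← div_eq_mul_inv, div_le_iff₀ (pow_pos h0 m)] at this

namespace WData

variable {W : Type*} [NormedCommRing W] [NormedAlgebra ℝ W] (D : WData W)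

theorem summable_pow (n : ℕ) (f : W) :
    Summable fun k : ℤ × ℤ => |D.coef k f| * ((k.1.natAbs + k.2.natAbs : ℕ) : ℝ) ^ n := by
  obtain ⟨C, hC, hle⟩ := exists_pow_le D.nu_gt n
  refine Summable.of_nonneg_of_le (fun k => by positivity) (fun k => ?_)
    ((D.norm f).summable.mul_left C)
  calc |D.coef k f| * ((k.1.natAbs + k.2.natAbs : ℕ) : ℝ) ^ n
      ≤ |D.coef k f| * (C * D.nu ^ (k.1.natAbs + k.2.natAbs)) := by
        gcongr
        exact hle _
    _ = _ := by ring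

theorem summable_abs (f : W) : Summable fun k : ℤ × ℤ => |D.coef k f| := by
  simpa using D.summable_pow 0 f

theorem summable_term (p : ℝ × ℝ) (f : W) :
    Summable fun k : ℤ × ℤ => (D.coef k f : ℂ) * ph k p := by
  apply Summable.of_norm
  simpa [norm_ph] using D.summable_abs f

/-- the value of the series at the point `p` -/
noncomputable def val (p : ℝ × ℝ) (f : W) : ℂ := ∑' k, (D.coef k f : ℂ) * ph k p

theorem hasSum_val (p : ℝ × ℝ) (f : W) :
    HasSum (fun k : ℤ × ℤ => (D.coef k f : ℂ) * ph k p) (D.val p f) :=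
  (D.summable_term p f).hasSum

theorem norm_val_le (p : ℝ × ℝ) (f : W) : ‖D.val p f‖ ≤ ‖f‖ := by
  have h1 : ‖D.val p f‖ ≤ ∑' k, |D.coef k f| := by
    refine (norm_tsum_le_tsum_norm ?_).trans ?_
    · simpa [norm_ph] using D.summable_abs f
    · simp [norm_ph]
  refine h1.trans ?_
  rw [← (D.norm f).tsum_eq]
  refine (D.summable_abs f).tsum_le_tsum (fun k => ?_) (D.norm f).summable
  have : (1 : ℝ) ≤ D.nu ^ (k.1.natAbs + k.2.natAbs) := one_le_pow₀ D.nu_gt.le
  nlinarith [abs_nonneg (D.coef k f)]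

/-- evaluation as a continuous linear map -/
noncomputable def evL (p : ℝ × ℝ) : W →L[ℝ] ℂ :=
  LinearMap.mkContinuous
    { toFun := D.val p
      map_add' := fun f g => by
        have h := (D.hasSum_val p f).add (D.hasSum_val p g)
        refine HasSum.unique (D.hasSum_val p (f + g)) ?_
        refine h.congr_fun ?_
        intro k
        simp only [map_add]
        push_cast
        ring
      map_smul' := fun c f => by
        have h := (D.hasSum_val p f).mul_left (c : ℂ)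
        refine HasSum.unique (D.hasSum_val p (c • f)) ?_
        simp only [RingHom.id_apply, Complex.real_smul]
        refine h.congr_fun ?_
        intro k
        simp only [map_smul, smul_eq_mul]
        push_cast
        ring } 1 (fun f => by
          rw [one_mul]
          exact D.norm_val_le p f)

theorem evL_apply (p : ℝ × ℝ) (f : W) : D.evL p f = D.val p f := rfl

theorem val_e (p : ℝ × ℝ) (k : ℤ × ℤ) : D.val p (D.e k) = ph k p := by
  refine HasSum.unique (D.hasSum_val p (D.e k)) ?_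
  have : (fun l => (D.coef l (D.e k) : ℂ) * ph l p) = fun l => if l = k then ph k p else 0 := by
    funext l
    rw [D.coef_e]
    split_ifs with h
    · subst h; simp
    · simp
  rw [this]
  exact hasSum_ite_eq k (ph k p)

theorem val_e_mul (p : ℝ × ℝ) (k : ℤ × ℤ) (g : W) :
    D.val p (D.e k * g) = ph k p * D.val p g := by
  have h1 := ((D.summ g).mul_left (D.e k)).mapL (D.evL p)
  have h2 := (D.hasSum_val p g).mul_left (ph k p)
  refine HasSum.unique h1 (h2.congr_fun ?_)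
  intro l
  rw [mul_smul_comm, ← D.e_add, map_smul, D.evL_apply, D.val_e, ph_add, Complex.real_smul]
  ring

theorem val_mul (p : ℝ × ℝ) (f g : W) : D.val p (f * g) = D.val p f * D.val p g := by
  have h1 := ((D.summ f).mul_right g).mapL (D.evL p)
  have h2 := (D.hasSum_val p f).mul_right (D.val p g)
  refine HasSum.unique h1 (h2.congr_fun ?_)
  intro k
  rw [smul_mul_assoc, map_smul, D.evL_apply, D.val_e_mul, Complex.real_smul]
  ring

/-- evaluation at the point `p` -/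
noncomputable def ev (p : ℝ × ℝ) : W →ₐ[ℝ] ℂ :=
  AlgHom.ofLinearMap (D.evL p : W →ₗ[ℝ] ℂ)
    (by
      have := D.val_e p 0
      rw [D.e_zero, ph_zero] at this
      exact this)
    (fun f g => D.val_mul p f g)

theorem ev_eq (p : ℝ × ℝ) (f : W) : D.ev p f = D.val p f := rfl

theorem hasSum_ev (p : ℝ × ℝ) (f : W) :
    HasSum (fun k : ℤ × ℤ => (D.coef k f : ℂ) * ph k p) (D.ev p f) := D.hasSum_val p f

theorem ev_e (p : ℝ × ℝ) (k : ℤ × ℤ) : D.ev p (D.e k) = ph k p := D.val_e p k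

theorem norm_ev_le (p : ℝ × ℝ) (f : W) : ‖D.ev p f‖ ≤ ‖f‖ := D.norm_val_le p f

theorem continuous_ev_right (p : ℝ × ℝ) : Continuous (D.ev p) := (D.evL p).continuous

/-- every element is a smooth function -/
theorem contDiff_ev (f : W) : ContDiff ℝ ∞ fun p => D.ev p f := by
  have : (fun p => D.ev p f) = fun p => ∑' k, (D.coef k f : ℂ) * ph k p := rfl
  rw [this]
  refine contDiff_tsum (v := fun n k => |D.coef k f| * ((k.1.natAbs + k.2.natAbs : ℕ) : ℝ) ^ n)
    (fun k => contDiff_const.mul (contDiff_ph k)) (fun n _ => D.summable_pow n f) ?_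
  intro n k p _
  have h1 : (fun p => (D.coef k f : ℂ) * ph k p) = (D.coef k f) • ph k := by
    funext q
    rw [Pi.smul_apply, Complex.real_smul]
  rw [h1]
  have h2 : iteratedFDeriv ℝ n ((D.coef k f) • ph k) p =
      (D.coef k f) • iteratedFDeriv ℝ n (ph k) p :=
    iteratedFDeriv_const_smul_apply (((contDiff_ph k).of_le (by exact_mod_cast le_top)).contDiffAt)
  rw [h2, norm_smul, Real.norm_eq_abs]
  exact mul_le_mul_of_nonneg_left (norm_iteratedFDeriv_ph_le k n p) (abs_nonneg _)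

theorem norm_clf_le (a b : ℂ) : ‖clf a b‖ ≤ ‖a‖ + ‖b‖ := by
  apply ContinuousLinearMap.opNorm_le_bound _ (by positivity)
  intro w
  rw [clf_apply]
  have h1 : |w.1| ≤ ‖w‖ := by simpa using norm_fst_le w
  have h2 : |w.2| ≤ ‖w‖ := by simpa using norm_snd_le w
  calc ‖(w.1 : ℂ) * a + (w.2 : ℂ) * b‖ ≤ ‖(w.1 : ℂ) * a‖ + ‖(w.2 : ℂ) * b‖ := norm_add_le _ _
    _ = |w.1| * ‖a‖ + |w.2| * ‖b‖ := by
      rw [norm_mul, norm_mul, Complex.norm_real, Complex.norm_real, Real.norm_eq_abs,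
        Real.norm_eq_abs]
    _ ≤ ‖w‖ * ‖a‖ + ‖w‖ * ‖b‖ := by gcongr
    _ = _ := by ring

/-- derivatives are given by the symbols `k.1`, `k.2` -/
theorem hasFDerivAt_ev {f g h : W} (hg : ∀ k : ℤ × ℤ, D.coef k g = k.1 * D.coef k f)
    (hh : ∀ k : ℤ × ℤ, D.coef k h = k.2 * D.coef k f) (p : ℝ × ℝ) :
    HasFDerivAt (fun q => D.ev q f) (clf (I * D.ev p g) (I * D.ev p h)) p := by
  have e1 : (fun q => D.ev q f) = fun q => ∑' k, (D.coef k f : ℂ) * ph k q := rfl
  rw [e1]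
  have key := hasFDerivAt_tsum (𝕜 := ℝ) (u := fun k : ℤ × ℤ => |D.coef k g| + |D.coef k h|)
    (f := fun (k : ℤ × ℤ) (q : ℝ × ℝ) => (D.coef k f : ℂ) * ph k q)
    (f' := fun (k : ℤ × ℤ) (q : ℝ × ℝ) =>
      clf (I * ((D.coef k g : ℂ) * ph k q)) (I * ((D.coef k h : ℂ) * ph k q)))
    ((D.summable_abs g).add (D.summable_abs h))
    (fun k q => by
      refine (fd_const_mul (D.coef k f : ℂ) (hasFDerivAt_ph k q)).congr_fderiv ?_
      rw [hg, hh]
      apply clf_congr <;> push_cast <;> ring)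
    (fun k q => by
      refine (norm_clf_le _ _).trans (le_of_eq ?_)
      simp [norm_ph])
    (x₀ := p) (D.summable_term p f) p
  refine key.congr_fderiv ?_
  have hs : Summable fun k : ℤ × ℤ =>
      clf (I * ((D.coef k g : ℂ) * ph k p)) (I * ((D.coef k h : ℂ) * ph k p)) := by
    refine Summable.of_norm_bounded ((D.summable_abs g).add (D.summable_abs h)) ?_
    intro k
    refine (norm_clf_le _ _).trans (le_of_eq ?_)
    simp [norm_ph]
  apply ContinuousLinearMap.ext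
  intro w
  have h1 := hs.hasSum.mapL (ContinuousLinearMap.apply ℝ ℂ w)
  simp only [ContinuousLinearMap.apply_apply, clf_apply] at h1
  have h2 := (((D.hasSum_ev p g).mul_left I).mul_left (w.1 : ℂ)).add
    (((D.hasSum_ev p h).mul_left I).mul_left (w.2 : ℂ))
  rw [clf_apply]
  exact h1.unique h2

/-- the symbol relations make a jet -/
theorem isJet {h : HJet W} (h1 : ∀ k : ℤ × ℤ, D.coef k h.fu = k.1 * D.coef k h.f)
    (h2 : ∀ k : ℤ × ℤ, D.coef k h.ft = k.2 * D.coef k h.f)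
    (h3 : ∀ k : ℤ × ℤ, D.coef k h.fuu = k.1 * D.coef k h.fu)
    (h4 : ∀ k : ℤ × ℤ, D.coef k h.fut = k.2 * D.coef k h.fu)
    (h5 : ∀ k : ℤ × ℤ, D.coef k h.ftt = k.2 * D.coef k h.ft) : IsJet D.ev h where
  smooth := D.contDiff_ev h.f
  d := D.hasFDerivAt_ev h1 h2
  du := D.hasFDerivAt_ev h3 h4
  dt := D.hasFDerivAt_ev (fun k => by rw [h4, h1, h2]; ring) h5

theorem ev_per1 (p : ℝ × ℝ) (f : W) : D.ev (p.1 + 2 * Real.pi, p.2) f = D.ev p f := by
  refine HasSum.unique (D.hasSum_ev _ f) ?_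
  simp only [ph_per1]
  exact D.hasSum_ev p f

theorem ev_per2 (p : ℝ × ℝ) (f : W) : D.ev (p.1, p.2 + 2 * Real.pi) f = D.ev p f := by
  refine HasSum.unique (D.hasSum_ev _ f) ?_
  simp only [ph_per2]
  exact D.hasSum_ev p f

theorem conj_ev (p : ℝ × ℝ) (f : W) : conj (D.ev p f) = D.ev (-p) f := by
  have h1 := (D.hasSum_ev p f).mapL (Complex.conjCLE : ℂ →L[ℝ] ℂ)
  refine HasSum.unique h1 ((D.hasSum_ev (-p) f).congr_fun ?_)
  intro k
  simp only [ContinuousLinearEquiv.coe_coe, Complex.conjCLE_apply, map_mul, Complex.conj_ofReal,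
    conj_ph]

theorem ev_neg_of {f : W} {s : ℝ} (h : ∀ k, D.coef (-k) f = s * D.coef k f) (p : ℝ × ℝ) :
    D.ev (-p) f = s * D.ev p f := by
  have h1 := (Equiv.neg (ℤ × ℤ)).hasSum_iff.2 (D.hasSum_ev (-p) f)
  refine HasSum.unique h1 (((D.hasSum_ev p f).mul_left (s : ℂ)).congr_fun ?_)
  intro k
  simp only [Function.comp_apply, Equiv.neg_apply, h, ph_neg_neg]
  push_cast
  ring

/-- even series are real -/
theorem ev_im {f : W} (h : ∀ k, D.coef (-k) f = D.coef k f) (p : ℝ × ℝ) : (D.ev p f).im = 0 := by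
  have h1 := D.conj_ev p f
  rw [D.ev_neg_of (s := 1) (by simpa using h)] at h1
  have h2 := congrArg Complex.im h1
  simp at h2
  linarith

/-- odd series are purely imaginary -/
theorem ev_re {f : W} (h : ∀ k, D.coef (-k) f = -D.coef k f) (p : ℝ × ℝ) :
    (D.ev p f).re = 0 := by
  have h1 := D.conj_ev p f
  rw [D.ev_neg_of (s := -1) (by simpa using h)] at h1
  have h2 := congrArg Complex.re h1
  simp at h2
  linarith

end WData

end D3
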